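import Pool.Agent.Helper60_BO.Uu
import Pool.Agent.Helper60_BO.Grn
import Pool.Agent.Helper34_BOU.Ugr
import Pool.Agent.Helper24_BOU.Ngr
import Pool.Agent.Helper83_BO.Tlo
import Pool.Agent.Helper83_BO.Tz
import Pool.Agent.Helper33_BOU.Xeu
import Pool.Agent.Helper33_BOU.Nrk2
import Pool.Agent.Helper63_BOU.Rkb
import Pool.Agent.Helper63_BOU.Tpm
import Pool.Agent.Helper65_BOU.Ti
import Pool.Agent.Helper11_BOU.Prc
import Pool.Agent.Helper46_BOU.Prb
import Pool.Agent.Helper46_BOU.Cfa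
import Pool.Agent.Helper26_BOU.Pra
import Pool.Agent.Helper74_BOU.Cir
import Pool.Agent.Helper17_BOU.Ulu
import Pool.Agent.Helper47_BOU.Rot
import Pool.Agent.Helper13_BOU.Opb
import Pool.Agent.Helper5_BOU.Nrk1
import Pool.Agent.Helper36_FB.Opl

/-!
# Squad BO, part U: assembly without hypotheses
-/

namespace Pool.Agent.BO.U

open Pool.Agent.BO

theorem t_tpm : TpmStmt := tpm

theorem t_tlo : TloStmt := Pool.Agent.Helper83BO.tlo

theorem t_tz : TzStmt := Pool.Agent.Helper83BO.tz t_tpm t_tlo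

theorem t_ti : TiStmt := H65.ti t_tpm

theorem t_pra : PraStmt := H26.pra

theorem t_prb : PrbStmt := H46.prb t_pra

theorem t_prc : PrcStmt := H11.prc t_pra t_ti

theorem t_xeu : XeuStmt := H33.xeu t_tz H26.hsu t_prb t_prc

theorem t_opb : OpbStmt := H13.opb

theorem t_ngr : NgrStmt :=
  H24.ngr (H5.nrk1 t_opb) (H33.nrk2 t_opb) H46.cfa H60.grn H47.rot t_opb

theorem t_uu : UuStmt := H60.uu t_ngr rkb H74.cir H17.ulu t_xeu

theorem t_ugr : UgrStmt := H34.ugr Pool.Agent.FB.H36.opl t_opb t_uu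

end Pool.Agent.BO.U
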